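import Mathlib
import Pool.Agent.X10.AI.Fib2

set_option autoImplicit false

/-!
# MP_5893d7_nt: prime values of the real solutions of the Fibonacci recurrence, all indices

The real solutions of `x (n + 2) = x (n + 1) + x n` are `T β B n = β φ ^ n + B ψ ^ n`; the companion
sequence `T' β B n = √5 (β φ ^ n - B ψ ^ n)` is the sequence `T (n - 1) + T (n + 1)`.  For
`β = 1 / √5`, `B = -1 / √5` these are the Fibonacci and the Lucas numbers.  We count the primes among
the integer parts of all terms with positive index, not only of those with prime index.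
-/

namespace Pool.Agent.Results.MP_5893d7_nt.AllIndices

open Filter Topology MeasureTheory Asymptotics

/-- The golden ratio. -/
noncomputable def φ : ℝ := (1 + Real.sqrt 5) / 2

/-- The conjugate of the golden ratio. -/
noncomputable def ψ : ℝ := (1 - Real.sqrt 5) / 2

/-- The Lucas numbers. -/
def L : ℕ → ℕ
  | 0 => 2
  | 1 => 1
  | (n + 2) => L (n + 1) + L n

/-- The real solutions of the Fibonacci recurrence. -/
noncomputable def T (β B : ℝ) (n : ℕ) : ℝ := β * φ ^ n + B * ψ ^ n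

/-- The companion sequence. -/
noncomputable def T' (β B : ℝ) (n : ℕ) : ℝ := Real.sqrt 5 * (β * φ ^ n - B * ψ ^ n)

/-- The integer part of the `n`-th term of the solution (`i = false`) or of its companion
(`i = true`). -/
noncomputable def X (i : Bool) (β B : ℝ) (n : ℕ) : ℕ := if i then ⌊T' β B n⌋₊ else ⌊T β B n⌋₊

open Classical in
/-- the number of indices `m` in `S` with `2 ≤ m ≤ n` for which `s m` is prime -/
noncomputable def M (s : ℕ → ℕ) (S : Set ℕ) (n : ℕ) : ℕ :=
  ((Finset.Icc 2 n).filter (fun m => m ∈ S ∧ (s m).Prime)).card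

open Classical in
/-- the sum of `1 / m` over the indices `m` in `S` with `2 ≤ m ≤ n` -/
noncomputable def V (S : Set ℕ) (n : ℕ) : ℝ :=
  ∑ m ∈ (Finset.Icc 2 n).filter (fun m => m ∈ S), 1 / (m : ℝ)

/-- The law with constant `κ` for the prime values of the sequence `s` of integers. -/
structure Law (s : ℕ → ℕ) (κ : ℝ) (S : Set ℕ) : Prop where
  /-- the number of all indices `m ≤ n` with `s m` prime -/
  all : (fun n : ℕ => (M s Set.univ n : ℝ) - κ * Real.log n) =O[atTop]
    (fun n : ℕ => Real.sqrt (Real.log n) * (Real.log (Real.log n)) ^ ((5 : ℝ) / 2))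
  /-- the number of indices `m ≤ n` in `S` with `s m` prime -/
  sets : Tendsto (V S) atTop atTop → (fun n : ℕ => (M s S n : ℝ) - κ * V S n) =O[atTop]
    (fun n : ℕ => Real.sqrt (V S n * Real.log (Real.log n)) *
      (Real.log (V S n * Real.log (Real.log n))) ^ 2)
  /-- there are infinitely many in `S` if and only if the sum of the reciprocals is infinite -/
  dichotomy : {m : ℕ | m ∈ S ∧ (s m).Prime}.Infinite ↔ Tendsto (V S) atTop atTop

lemma V_eq (S : Set ℕ) : V S = Pool.Agent.X10.AI.VS S := by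
  funext n
  unfold V Pool.Agent.X10.AI.VS Pool.Agent.X10.AI.wt
  rw [← Finset.sum_filter]
  refine Finset.sum_congr ?_ fun _ _ => rfl
  ext q
  simp only [Finset.mem_filter, Finset.mem_Icc, Finset.mem_range]
  constructor
  · rintro ⟨⟨h1, h2⟩, h3⟩
    exact ⟨by omega, h3, h1⟩
  · rintro ⟨h1, h2, h3⟩
    exact ⟨⟨h3, by omega⟩, h2⟩

lemma M_eq (s : ℕ → ℕ) (S : Set ℕ) (n : ℕ) : M s S n = Pool.Agent.X10.AI.cS S s n := by
  unfold M Pool.Agent.X10.AI.cS
  congr 1
  ext q
  simp only [Finset.mem_filter, Finset.mem_Icc, Finset.mem_range]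
  constructor
  · rintro ⟨⟨h1, h2⟩, h3, h4⟩
    exact ⟨by omega, h1, h3, h4⟩
  · rintro ⟨h1, h2, h3, h4⟩
    exact ⟨⟨h2, by omega⟩, h3, h4⟩

lemma law_of {s : ℕ → ℕ} {κ : ℝ} {S : Set ℕ}
    (h1 : Pool.Agent.X10.AI.Pt s κ Set.univ) (h2 : Pool.Agent.X10.AI.Pt s κ S) : Law s κ S := by
  refine ⟨?_, fun hS => ?_, ?_⟩
  · obtain ⟨B, hB, h⟩ := h1.law Pool.Agent.X10.AI.VS_univ_tendsto
    simp only [M_eq]
    exact Pool.Agent.X10.AI.bigO_all hB h
  · rw [V_eq] at hS ⊢
    obtain ⟨B, hB, h⟩ := h2.law hS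
    simp only [M_eq]
    exact Pool.Agent.TH888.R.bigO_set hB hS h
  · rw [V_eq]
    constructor
    · intro hi
      by_contra hn
      refine hi (((h2.fin hn).union (Set.finite_lt_nat 2)).subset fun m hm => ?_)
      by_cases h : 2 ≤ m
      · exact Or.inl ⟨h, hm⟩
      · exact Or.inr (by show m < 2; omega)
    · intro hS
      exact (h2.inf hS).mono fun m hm => hm.2

lemma lucas_eq (n : ℕ) : T' (1 / Real.sqrt 5) (-(1 / Real.sqrt 5)) n = L n := by
  have h5 := Pool.Agent.X10.AI.Fib.s5_pos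
  have hp : φ ^ 2 = φ + 1 := Pool.Agent.X10.AI.Fib.phi_sq
  have hq : ψ ^ 2 = ψ + 1 := Pool.Agent.X10.AI.Fib.psi_sq
  have e : ∀ n, T' (1 / Real.sqrt 5) (-(1 / Real.sqrt 5)) n = L n ∧
      T' (1 / Real.sqrt 5) (-(1 / Real.sqrt 5)) (n + 1) = L (n + 1) := by
    intro n
    induction n with
    | zero =>
      constructor
      · unfold T'
        rw [pow_zero, pow_zero]
        show _ = ((2 : ℕ) : ℝ)
        push_cast
        field_simp
        ring
      · unfold T'
        rw [zero_add, pow_one, pow_one]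
        show _ = ((1 : ℕ) : ℝ)
        push_cast
        field_simp
        unfold φ ψ
        ring
    | succ n ih =>
      refine ⟨ih.2, ?_⟩
      show _ = ((L (n + 1) + L n : ℕ) : ℝ)
      rw [Nat.cast_add, ← ih.1, ← ih.2]
      unfold T'
      linear_combination (Real.sqrt 5 * (1 / Real.sqrt 5) * φ ^ n) * hp +
        (Real.sqrt 5 * (1 / Real.sqrt 5) * ψ ^ n) * hq
  exact (e n).1

/-- (1) The real solutions of `x (n + 2) = x (n + 1) + x n` are the `T β B`, the companion of `T β B`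
is `T (n - 1) + T (n + 1)`, and for `β = 1 / √5 = -B` we have the Fibonacci and the Lucas numbers.
(2) For every real `B`, every set `S` of indices and almost every `β > 0`, the law holds for the
integer parts of `T β B` with the constant `1 / log φ`.  (3) For every real `B` and every
`W : ℕ → ℕ` with `∑ W m / m ^ 2 < ∞`, for almost every `β > 0`: for all large `m`, two integer parts
of terms of `T β B` or `T' β B` with indices `m` and `n`, `m ≤ n ≤ m + W m`, are never both prime. -/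
theorem result :
    ((∀ x : ℕ → ℝ, (∀ n, x (n + 2) = x (n + 1) + x n) → ∃ β B : ℝ, ∀ n, x n = T β B n) ∧
      (∀ (β B : ℝ) (n : ℕ), T' β B (n + 1) = T β B n + T β B (n + 2)) ∧
      (∀ n : ℕ, X false (1 / Real.sqrt 5) (-(1 / Real.sqrt 5)) n = Nat.fib n) ∧
      ∀ n : ℕ, X true (1 / Real.sqrt 5) (-(1 / Real.sqrt 5)) n = L n) ∧
    (∀ (B : ℝ) (S : Set ℕ), ∀ᵐ β : ℝ, 0 < β → Law (X false β B) (1 / Real.log φ) S) ∧
    ∀ (B : ℝ) (W : ℕ → ℕ), Summable (fun m : ℕ => (W m : ℝ) / (m : ℝ) ^ 2) →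
      ∀ᵐ β : ℝ, 0 < β → ∀ᶠ m : ℕ in atTop, ∀ n : ℕ, m ≤ n → n ≤ m + W m → ∀ i j : Bool,
        (m, i) ≠ (n, j) → ¬ ((X i β B m).Prime ∧ (X j β B n).Prime) := by
  refine ⟨⟨fun x hx => Pool.Agent.X10.AI.Fib.solution x hx,
    fun β B n => Pool.Agent.X10.AI.Fib.companion β B n, fun n => ?_, fun n => ?_⟩,
    fun B S => ?_, fun B W hW => Pool.Agent.X10.AI.Fib.space_all B W hW⟩
  · have h : T (1 / Real.sqrt 5) (-(1 / Real.sqrt 5)) n = Nat.fib n :=
      Pool.Agent.X10.AI.Fib.fib_eq n
    unfold X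
    rw [if_neg (by simp), h, Nat.floor_natCast]
  · unfold X
    rw [if_pos rfl, lucas_eq, Nat.floor_natCast]
  · filter_upwards [Pool.Agent.X10.AI.Fib.law_T B Set.univ, Pool.Agent.X10.AI.Fib.law_T B S]
      with β h1 h2 h0
    exact law_of (h1 h0) (h2 h0)

end Pool.Agent.Results.MP_5893d7_nt.AllIndices
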