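import Pool.Agent.X34.M.M9

set_option autoImplicit false

/-!
# Fibonacci and Lucas numbers with prime indices all of whose prime factors are beyond the record size

For at least `X ^ (9 / 10)` primes `p` in `(X, 3 X]` (in any class modulo a squarefree number) all the prime factors of the
Fibonacci number `F_p`, of the Lucas number `L_p`, and all the prime factors of the terms `U_p(P, Q)`, `V_p(P, Q)` of all
the Lucas sequences with coprime parameters, apart from the divisors of `P ^ 2 - 4 Q` and `P` respectively, exceed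
`c p f(p)`, where `f(p) = log p (log₂ p)² log₄ p / (log₃ p)²` (iterated natural logarithms) is the size of the largest known
gaps between primes. The same holds for the prime factors `q ≠ p` of `U_{m p}` which do not divide `U_m`, for all `m`.

Proof: such prime factors are `≡ ± 1 (mod p)`; record covering sieve with a prime in the middle (starting library,
`Pool.Agent.TH101.RG.oneZ`, helper101) for the family of the forms `z n + ℓ` with the variable coefficient `z`.
-/

namespace Pool.Agent.Results.MP_5893d7_nt.FactorsBeyondRecord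

/-- The record scale `f(x) = log x (log₂ x)² log₄ x / (log₃ x)²` (iterated natural logarithms). -/
noncomputable def f (x : ℝ) : ℝ :=
  Real.log x * (Real.log (Real.log x)) ^ 2 * Real.log (Real.log (Real.log (Real.log x))) /
    (Real.log (Real.log (Real.log x))) ^ 2

/-- The Lucas sequence `U_n(P, Q)`: `U_0 = 0`, `U_1 = 1`, `U_{n+2} = P U_{n+1} - Q U_n`. -/
def U (P Q : ℤ) : ℕ → ℤ
  | 0 => 0
  | 1 => 1
  | n + 2 => P * U P Q (n + 1) - Q * U P Q n

/-- The companion Lucas sequence `V_n(P, Q)`: `V_0 = 2`, `V_1 = P`, `V_{n+2} = P V_{n+1} - Q V_n`. The Lucas numbers are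
`L_n = V_n(1, -1)`. -/
def V (P Q : ℤ) : ℕ → ℤ
  | 0 => 2
  | 1 => P
  | n + 2 => P * V P Q (n + 1) - Q * V P Q n

/-- For every squarefree `d` there is `c > 0` such that for all large `X` and all `h` prime to `d` at least
`X ^ (9 / 10)` primes `p` with `X < p ≤ 3 X`, `p ≡ h (mod d)` have the following properties.
(1) All prime factors of the Fibonacci number `F_p` are larger than `c p f(p)`.
(2) All prime factors of the Lucas number `L_p = V_p(1, -1)` are larger than `c p f(p)`.
(3) For all coprime `P`, `Q`, all prime factors of `U_p(P, Q)` not dividing `P ^ 2 - 4 Q` are larger than `c p f(p)`.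
(4) For all coprime `P`, `Q`, all prime factors of `V_p(P, Q)` not dividing `P` are larger than `c p f(p)`.
(5) For all coprime `P`, `Q` and all `m`, all prime factors `q ≠ p` of `U_{m p}(P, Q)` not dividing `U_m(P, Q)` are larger
than `c p f(p)`. -/
theorem result (d : ℕ) (hd : Squarefree d) : ∃ c : ℝ, 0 < c ∧ ∃ X₀ : ℝ, ∀ X : ℝ, X₀ ≤ X →
    ∀ h : ℕ, h.Coprime d →
    X ^ (9 / 10 : ℝ) ≤ ({p : ℕ | p.Prime ∧ X < p ∧ (p : ℝ) ≤ 3 * X ∧ p ≡ h [MOD d] ∧
      (∀ q : ℕ, q.Prime → q ∣ Nat.fib p → c * (p * f p) < q) ∧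
      (∀ q : ℕ, q.Prime → (q : ℤ) ∣ V 1 (-1) p → c * (p * f p) < q) ∧
      (∀ P Q : ℤ, IsCoprime P Q → ∀ q : ℕ, q.Prime → (q : ℤ) ∣ U P Q p → ¬ (q : ℤ) ∣ P ^ 2 - 4 * Q →
        c * (p * f p) < q) ∧
      (∀ P Q : ℤ, IsCoprime P Q → ∀ q : ℕ, q.Prime → (q : ℤ) ∣ V P Q p → ¬ (q : ℤ) ∣ P → c * (p * f p) < q) ∧
      (∀ P Q : ℤ, IsCoprime P Q → ∀ m q : ℕ, q.Prime → q ≠ p → (q : ℤ) ∣ U P Q (m * p) → ¬ (q : ℤ) ∣ U P Q m →
        c * (p * f p) < q)}.ncard : ℝ) :=
  Pool.Agent.X34.M.lucas U V (fun _ _ => rfl) (fun _ _ => rfl) (fun _ _ _ => rfl) (fun _ _ => rfl) (fun _ _ => rfl)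
    (fun _ _ _ => rfl) d hd

end Pool.Agent.Results.MP_5893d7_nt.FactorsBeyondRecord
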