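import Mathlib
import Pool.Agent.X191.CP.Cur
import Pool.Agent.H447R2.ML.Spec

set_option autoImplicit false

/-!
# Close pairs of prime terms, and common prime indices, of Lucas sequences with a real parameter

For real `x > 0` let `U_n` and `V_n` be the Lucas sequences of the first and the second kind with the
parameters `(x, -1)`; for `x = 1` they are the Fibonacci and the Lucas numbers.  We call a prime `p`
a hit of a real sequence `s` if the `p`-rough part (the product, with multiplicity, of the prime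
factors larger than `p`) of `⌊s p⌋` is prime.  For the Fibonacci and the Lucas numbers a prime
`p > 5` is a hit if and only if the number with the index `p` is prime.

We prove: for almost every `x > 0` only finitely many primes `p` are hits of both sequences, and for
every `ε > 0` there are only finitely many pairs `p < q ≤ p + p / (log p) ^ (1 + ε)` such that `p` is a
hit of one of the sequences and `q` a hit of one of them; more generally this holds for the pairs of
primes in any set of pairs with a finite sum of `(log p / p) (log q / q)`.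

The bounds for the measure of the event that `p` and `q` are hits are in the starting library
(`Pool.Agent.W66C.near_c`, `Pool.Agent.H447R2.ML.pair_bound`).
-/

namespace Pool.Agent.Results.MP_5893d7_nt.LucasClosePairs

open Filter Topology MeasureTheory

/-- The Lucas numbers. -/
def L : ℕ → ℕ
  | 0 => 2
  | 1 => 1
  | (n + 2) => L (n + 1) + L n

/-- The Lucas sequence of the first kind with the parameters `(x, -1)`. -/
noncomputable def U (x : ℝ) : ℕ → ℝ
  | 0 => 0
  | 1 => 1
  | (n + 2) => x * U x (n + 1) + U x n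

/-- The Lucas sequence of the second kind with the parameters `(x, -1)`. -/
noncomputable def V (x : ℝ) : ℕ → ℝ
  | 0 => 2
  | 1 => x
  | (n + 2) => x * V x (n + 1) + V x n

/-- The product, with multiplicity, of the prime factors of `m` that are larger than `p`. -/
def roughPart (p m : ℕ) : ℕ := (m.primeFactorsList.filter (fun r => p < r)).prod

/-- `p` is prime and the `p`-rough part of the integer part of `s p` is prime. -/
def Hit (s : ℕ → ℝ) (p : ℕ) : Prop := p.Prime ∧ (roughPart p ⌊s p⌋₊).Prime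

/-- `U` for `false` and `V` for `true`. -/
noncomputable def T (i : Bool) (x : ℝ) : ℕ → ℝ := if i then V x else U x

open Pool.Agent.X191.CP
open Pool.Agent.W66C (Cur yy yy1 yy2 fam_cur measurable_yy lU lV lU_closed lV_closed hyp_odd ae_of_sinh)

lemma U_eq (x : ℝ) (n : ℕ) : U x n = lU x n := by
  induction n using Nat.twoStepInduction with
  | zero => rfl
  | one => rfl
  | more n h1 h2 => rw [U, lU, h1, h2]

lemma V_eq (x : ℝ) (n : ℕ) : V x n = lV x n := by
  induction n using Nat.twoStepInduction with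
  | zero => rfl
  | one => rfl
  | more n h1 h2 => rw [V, lV, h1, h2]

noncomputable def sg (i : Bool) : ℝ := if i then -1 else 1

noncomputable def H (i : Bool) : ℝ → ℝ := if i then fun _ => 0 else fun t => -Real.log (2 * Real.cosh t)

noncomputable def H1 (i : Bool) : ℝ → ℝ := if i then fun _ => 0 else fun t => -(2 * Real.sinh t / (2 * Real.cosh t))

noncomputable def H2 (i : Bool) : ℝ → ℝ := if i then fun _ => 0 else
  fun t => -((2 * Real.cosh t * (2 * Real.cosh t) - 2 * Real.sinh t * (2 * Real.sinh t)) /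
      (2 * Real.cosh t) ^ 2)

lemma sg_le (i : Bool) : |sg i| ≤ 1 := by cases i <;> simp [sg]

lemma H_meas (i : Bool) : Measurable (H i) := by
  cases i
  · simp only [H, Bool.false_eq_true, if_false]; fun_prop
  · simp only [H, if_true]; exact measurable_const

lemma fam (i : Bool) : ∀ a0 a1 : ℝ, (0 : ℝ) < a0 → a0 < a1 → ∃ D : ℝ, 0 ≤ D ∧
      ∀ᶠ p : ℕ in atTop, Cur a0 a1 D (H1 i) p (yy 2 0 (sg i) (H i) p) (yy1 2 0 (sg i) (H1 i) p)
        (yy2 2 0 (sg i) (H2 i) p) := by
  have hne : ∀ t : ℝ, 2 * Real.cosh t ≠ 0 := fun t => by have := Real.cosh_pos t; positivity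
  refine fam_cur two_pos (sg_le i) (by norm_num) ?_ ?_ ?_
  · cases i
    · simp only [H, H1, Bool.false_eq_true, if_false]
      exact fun t _ => (((Real.hasDerivAt_cosh t).const_mul 2).log (hne t)).neg
    · simp only [H, H1, if_true]
      exact fun t _ => hasDerivAt_const _ _
  · cases i
    · simp only [H2, H1, Bool.false_eq_true, if_false]
      exact fun t _ => (((Real.hasDerivAt_sinh t).const_mul 2).div
        ((Real.hasDerivAt_cosh t).const_mul 2) (hne t)).neg
    · simp only [H2, H1, if_true]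
      exact fun t _ => hasDerivAt_const _ _
  · cases i
    · simp only [H2, Bool.false_eq_true, if_false]
      exact ContinuousOn.neg (ContinuousOn.div (by fun_prop) (by fun_prop)
        fun t _ => pow_ne_zero 2 (hne t))
    · simp only [H2, if_true]
      exact continuousOn_const

lemma value (i : Bool) : ∀ t, (0 : ℝ) < t → ∀ᶠ p : ℕ in atTop, p.Prime →
    0 < T i (2 * Real.sinh t) p ∧ Real.log (T i (2 * Real.sinh t) p) = yy 2 0 (sg i) (H i) p t := by
  intro t ht
  filter_upwards [eventually_ge_atTop 3] with p hp hpp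
  have hodd : Odd p := hpp.odd_of_ne_two (by omega)
  have hp0 : (0 : ℝ) < p := by positivity
  unfold yy
  cases i
  · simp only [T, H, sg, Bool.false_eq_true, if_false]
    rw [U_eq]
    have hcl := lU_closed t p
    rw [hyp_odd t hodd, sub_neg_eq_add, ← Real.exp_nat_mul] at hcl
    have hc : 0 < 2 * Real.cosh t := by have := Real.cosh_pos t; positivity
    have e1 : lU (2 * Real.sinh t) p = (Real.exp (p * t) + Real.exp (-(p * t))) / (2 * Real.cosh t) := by
      rw [← hcl]; field_simp
    have h2 : 0 < Real.exp (p * t) + Real.exp (-(p * t)) := by positivity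
    have e2 : Real.exp (p * t) + Real.exp (-(p * t)) =
        Real.exp (p * t) * (1 + 1 * Real.exp (-(p * (2 * t - 0)))) := by
      rw [one_mul, mul_add, mul_one, ← Real.exp_add]
      congr 2
      ring
    refine ⟨by rw [e1]; positivity, ?_⟩
    rw [e1, Real.log_div h2.ne' hc.ne', e2, Real.log_mul (Real.exp_pos _).ne' (by positivity),
      Real.log_exp]
    ring
  · simp only [T, H, sg, if_true]
    rw [V_eq]
    have e1 : lV (2 * Real.sinh t) p = Real.exp (p * t) - Real.exp (-(p * t)) := by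
      rw [lV_closed, hyp_odd t hodd, ← Real.exp_nat_mul]; ring
    have h2 : Real.exp (-(p * (2 * t - 0))) < 1 := by
      rw [Real.exp_lt_one_iff]
      have : 0 < p * (2 * t - 0) := by
        rw [sub_zero]; positivity
      linarith
    have e2 : Real.exp (p * t) - Real.exp (-(p * t)) =
        Real.exp (p * t) * (1 + -1 * Real.exp (-(p * (2 * t - 0)))) := by
      rw [neg_one_mul, mul_add, mul_one, mul_neg, ← Real.exp_add, ← sub_eq_add_neg]
      congr 2
      ring
    have h3 : 0 < Real.exp (p * t) * (1 + -1 * Real.exp (-(p * (2 * t - 0)))) :=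
      mul_pos (Real.exp_pos _) (by linarith)
    rw [e1, e2]
    refine ⟨h3, ?_⟩
    rw [Real.log_mul (Real.exp_pos _).ne' (by linarith), Real.log_exp]
    ring

lemma tanh_bd {t : ℝ} (ht : 0 < t) :
    0 < 2 * Real.sinh t / (2 * Real.cosh t) ∧ 2 * Real.sinh t / (2 * Real.cosh t) ≤ 1 := by
  have h1 := Real.sinh_pos_iff.2 ht
  have h2 := Real.cosh_pos t
  refine ⟨by positivity, ?_⟩
  rw [div_le_one (by positivity)]
  linarith [Real.sinh_lt_cosh t]

lemma H1_bd (i : Bool) {t : ℝ} (ht : 0 < t) : -1 ≤ H1 i t ∧ H1 i t ≤ 0 := by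
  have := tanh_bd ht
  cases i
  · simp only [H1, Bool.false_eq_true, if_false]
    constructor <;> linarith
  · simp only [H1, if_true]
    constructor <;> linarith

/-- different levels -/
lemma core (i j : Bool) (S : Set (ℕ × ℕ))
    (hS : Summable (fun x : ℕ × ℕ => {x | x ∈ S ∧ x.1.Prime ∧ x.2.Prime ∧ x.1 < x.2}.indicator
      (fun x : ℕ × ℕ => Real.log x.1 / x.1 * (Real.log x.2 / x.2)) x)) :
    ∀ᵐ x : ℝ, 0 < x → ∀ᶠ p : ℕ in atTop, ∀ q : ℕ, (p, q) ∈ S → p < q →
      ¬ (Hit (T i x) p ∧ Hit (T j x) q) := by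
  classical
  refine ae_of_sinh (Q := fun x : ℝ => 0 < x → ∀ᶠ p : ℕ in atTop, ∀ q : ℕ, (p, q) ∈ S → p < q →
      ¬ (Hit (T i x) p ∧ Hit (T j x) q)) ?_
  set S' : Set (ℕ × ℕ) := {x | x ∈ S ∧ x.1.Prime ∧ x.2.Prime ∧ x.1 < x.2 ∧ 3 ≤ x.1} with hS'
  have h := pairs_val (c0 := 0) le_rfl (fun p => measurable_yy 2 0 (sg i) (H_meas i) p)
    (fun p => measurable_yy 2 0 (sg j) (H_meas j) p) (fam i) (fam j) (S := S')
    (fun x hx => ⟨hx.2.1, hx.2.2.1, hx.2.2.2.1.le⟩)
    (by
      intro a0 a1 ha0 _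
      refine ⟨1 / 2, by norm_num, by norm_num, ?_⟩
      have e1 := yy1_close (m1 := 2) (m0 := 0) (c0 := 0) (H' := H1 i) two_pos (sg_le i) (by norm_num)
        (show (0 : ℝ) < 1 / 8 by norm_num) a0 a1 ha0
      have e2 := yy1_close (m1 := 2) (m0 := 0) (c0 := 0) (H' := H1 j) two_pos (sg_le j) (by norm_num)
        (show (0 : ℝ) < 1 / 8 by norm_num) a0 a1 ha0
      obtain ⟨P1, h1⟩ := eventually_atTop.1 e1
      obtain ⟨P2, h2⟩ := eventually_atTop.1 e2
      filter_upwards [eventually_ge_atTop (P1 + P2)] with p hp q hpq t ht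
      obtain ⟨_, hpp, hqp, hlt, h3⟩ := hpq
      simp only at hpp hqp hlt h3
      have g1 := abs_le.1 (h1 p (by omega) t ht)
      have g2 := abs_le.1 (h2 q (by omega) t ht)
      have g3 := H1_bd i (ha0.trans_le ht.1)
      have g4 := H1_bd j (ha0.trans_le ht.1)
      have g5 : (p : ℝ) + 2 ≤ q := by
        have o1 : Odd p := hpp.odd_of_ne_two (by omega)
        have o2 : Odd q := hqp.odd_of_ne_two (by omega)
        obtain ⟨a, ha⟩ := o1
        obtain ⟨b, hb⟩ := o2
        exact_mod_cast (by omega : p + 2 ≤ q)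
      linarith [g1.1, g1.2, g2.1, g2.2, g3.1, g3.2, g4.1, g4.2])
    (by
      refine Summable.of_nonneg_of_le (fun x => ?_) (fun x => ?_) hS
      · exact Set.indicator_nonneg (fun x _ => mul_nonneg (w_nonneg _) (w_nonneg _)) x
      · refine Set.indicator_le_indicator_of_subset ?_ (fun x => mul_nonneg (w_nonneg _) (w_nonneg _)) x
        intro x hx
        exact ⟨hx.1, hx.2.1, hx.2.2.1, hx.2.2.2.1⟩)
    (val := fun p t => T i (2 * Real.sinh t) p) (val2 := fun p t => T j (2 * Real.sinh t) p)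
    (value i) (value j)
  filter_upwards [h] with t ht hx
  have ht0 : 0 < t := Real.sinh_pos_iff.1 (by linarith)
  filter_upwards [ht ht0, eventually_ge_atTop 3] with p h1 hp q hpq hlt h2
  exact h1 q ⟨hpq, h2.1.1, h2.2.1, hlt, hp⟩ h2.1.2 h2.2.2

lemma w_sq : Summable (fun p : ℕ => w p * w p) := by
  have hlog : ∀ᶠ p : ℕ in atTop, ‖w p * w p‖ ≤ 1 / (p : ℝ) ^ (3 / 2 : ℝ) := by
    have := (isLittleO_log_rpow_rpow_atTop 2 (show (0 : ℝ) < 1 / 2 by norm_num)).bound
      (show (0 : ℝ) < 1 by norm_num)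
    have h2 := (tendsto_natCast_atTop_atTop (R := ℝ)).eventually this
    filter_upwards [h2, eventually_ge_atTop 1] with p h2 hp
    have hp1 : (1 : ℝ) ≤ p := by exact_mod_cast hp
    rw [Real.norm_of_nonneg (mul_nonneg (w_nonneg _) (w_nonneg _))]
    rw [Real.norm_of_nonneg (Real.rpow_nonneg (Real.log_nonneg hp1) _),
      Real.norm_of_nonneg (Real.rpow_nonneg (by linarith) _), one_mul, Real.rpow_two] at h2
    unfold w
    have e : (p : ℝ) ^ (3 / 2 : ℝ) * (p : ℝ) ^ (1 / 2 : ℝ) = p * p := by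
      rw [← Real.rpow_add (by linarith)]
      norm_num
      rw [sq]
    rw [div_mul_div_comm, div_le_div_iff₀ (by positivity) (by positivity), one_mul, ← e]
    have h3 : (0 : ℝ) ≤ (p : ℝ) ^ (3 / 2 : ℝ) := by positivity
    nlinarith
  exact Summable.of_norm_bounded_eventually_nat (Real.summable_one_div_nat_rpow.2 (by norm_num)) hlog

/-- the same level -/
lemma same_level : ∀ᵐ x : ℝ, 0 < x → ∀ᶠ p : ℕ in atTop, ¬ (Hit (U x) p ∧ Hit (V x) p) := by
  classical
  refine ae_of_sinh (Q := fun x : ℝ => 0 < x → ∀ᶠ p : ℕ in atTop, ¬ (Hit (U x) p ∧ Hit (V x) p)) ?_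
  set S' : Set (ℕ × ℕ) := {x | x.1.Prime ∧ x.1 = x.2} with hS'
  have h := pairs_val (c0 := 0) le_rfl (fun p => measurable_yy 2 0 (sg false) (H_meas false) p)
    (fun p => measurable_yy 2 0 (sg true) (H_meas true) p) (fam false) (fam true) (S := S')
    (fun x hx => ⟨hx.1, hx.2 ▸ hx.1, hx.2.le⟩)
    (by
      intro a0 a1 ha0 _
      set τ := 2 * Real.sinh a0 / (2 * Real.cosh a0) with hτ
      have hτb := tanh_bd ha0
      rw [← hτ] at hτb
      refine ⟨τ / 2, by linarith, by linarith, ?_⟩
      have e1 := yy1_close (m1 := 2) (m0 := 0) (c0 := 0) (H' := H1 false) two_pos (sg_le false)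
        (by norm_num) (show (0 : ℝ) < τ / 4 by linarith) a0 a1 ha0
      have e2 := yy1_close (m1 := 2) (m0 := 0) (c0 := 0) (H' := H1 true) two_pos (sg_le true)
        (by norm_num) (show (0 : ℝ) < τ / 4 by linarith) a0 a1 ha0
      filter_upwards [e1, e2] with p h1 h2 q hpq t ht
      obtain ⟨_, heq⟩ := hpq
      simp only at heq
      subst heq
      have g1 := abs_le.1 (h1 t ht)
      have g2 := abs_le.1 (h2 t ht)
      have g3 : H1 true t = 0 := by simp [H1]
      have g4 : H1 false t = -(2 * Real.sinh t / (2 * Real.cosh t)) := by simp [H1]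
      have ht0 : 0 < t := ha0.trans_le ht.1
      have g5 : τ ≤ 2 * Real.sinh t / (2 * Real.cosh t) := by
        rw [hτ, div_le_div_iff₀ (by have := Real.cosh_pos a0; positivity)
          (by have := Real.cosh_pos t; positivity)]
        have h3 : 0 ≤ Real.sinh (t - a0) := Real.sinh_nonneg_iff.2 (by linarith [ht.1])
        rw [Real.sinh_sub] at h3
        nlinarith
      rw [g3] at g2
      rw [g4] at g1
      linarith [g1.1, g1.2, g2.1, g2.2])
    (by
      refine summable_pairs (g := fun p => w p * w p) (fun x => ?_) (fun p => ?_) w_sq ?_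
      · exact Set.indicator_nonneg (fun x _ => mul_nonneg (w_nonneg _) (w_nonneg _)) x
      · refine (Set.finite_singleton p).subset fun q hq => ?_
        have := Set.mem_of_indicator_ne_zero hq
        exact this.2.symm
      · refine Eventually.of_forall fun p => ?_
        have hs : ∀ q : ℕ, q ≠ p → S'.indicator (fun x : ℕ × ℕ => w x.1 * w x.2) (p, q) = 0 := by
          intro q hq
          exact Set.indicator_of_notMem (fun h => hq h.2.symm) _
        rw [tsum_eq_single p hs]
        exact Set.indicator_le_self' (fun x _ => mul_nonneg (w_nonneg _) (w_nonneg _)) _)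
    (val := fun p t => T false (2 * Real.sinh t) p) (val2 := fun p t => T true (2 * Real.sinh t) p)
    (value false) (value true)
  filter_upwards [h] with t ht hx
  have ht0 : 0 < t := Real.sinh_pos_iff.1 (by linarith)
  filter_upwards [ht ht0] with p h1 h2
  exact h1 p ⟨h2.1.1, rfl⟩ h2.1.2 h2.2.2

/-- close pairs, fixed `ε` -/
lemma close_fixed {ε : ℝ} (hε : 0 < ε) : ∀ᵐ x : ℝ, 0 < x →
    ∀ᶠ p : ℕ in atTop, ∀ q : ℕ, p < q → (q : ℝ) ≤ p + p / Real.log p ^ (1 + ε) →
      ∀ i j : Bool, ¬ (Hit (T i x) p ∧ Hit (T j x) q) := by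
  have h := ae_all_iff.2 fun i : Bool => ae_all_iff.2 fun j : Bool =>
    core i j {x | (x.2 : ℝ) ≤ x.1 + wid ε x.1} (by
      refine (pair_sum hε).congr fun x => ?_
      classical
      rw [Set.indicator_apply]
      refine if_congr ?_ rfl rfl
      simp only [Set.mem_ofPred_eq]
      tauto)
  filter_upwards [h] with x hx h0
  filter_upwards [hx false false h0, hx false true h0, hx true false h0, hx true true h0]
    with p h1 h2 h3 h4 q hlt hle i j
  cases i <;> cases j
  · exact h1 q hle hlt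
  · exact h2 q hle hlt
  · exact h3 q hle hlt
  · exact h4 q hle hlt

lemma wid_anti {ε δ : ℝ} (h : δ ≤ ε) {p : ℕ} (hp : 1 ≤ Real.log p) :
    (p : ℝ) / Real.log p ^ (1 + ε) ≤ p / Real.log p ^ (1 + δ) := by
  refine div_le_div_of_nonneg_left (Nat.cast_nonneg _) (Real.rpow_pos_of_pos (by linarith) _) ?_
  exact Real.rpow_le_rpow_of_exponent_le hp (by linarith)

lemma U_fib (n : ℕ) : U 1 n = (Nat.fib n : ℝ) := by
  induction n using Nat.twoStepInduction with
  | zero => simp [U]
  | one => simp [U]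
  | more n h1 h2 =>
    show 1 * U 1 (n + 1) + U 1 n = _
    rw [h1, h2, Nat.fib_add_two]
    push_cast
    ring

lemma V_luc (n : ℕ) : V 1 n = (L n : ℝ) := by
  induction n using Nat.twoStepInduction with
  | zero => simp [V, L]
  | one => simp [V, L]
  | more n h1 h2 =>
    show 1 * V 1 (n + 1) + V 1 n = _
    rw [h1, h2, show L (n + 2) = L (n + 1) + L n from rfl]
    push_cast
    ring

lemma fib_eq (n : ℕ) : Pool.Agent.H447R2.ML.U 1 n = Nat.fib n := by
  induction n using Nat.twoStepInduction with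
  | zero => rfl
  | one => rfl
  | more n h1 h2 =>
    rw [Pool.Agent.H447R2.ML.U_add_two, h1, h2, Nat.fib_add_two]
    ring

lemma luc_eq (n : ℕ) : Pool.Agent.H447R2.ML.V 1 n = L n := by
  induction n using Nat.twoStepInduction with
  | zero => rfl
  | one => rfl
  | more n h1 h2 =>
    show _ = L (n + 1) + L n
    rw [Pool.Agent.H447R2.ML.V_add_two, h1, h2]
    ring

lemma W_fib {p : ℕ} (hp : p.Prime) (h5 : 5 < p) : roughPart p ⌊U 1 p⌋₊ = Nat.fib p := by
  have hd : ¬ p ∣ 1 ^ 2 + 4 := by
    intro h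
    have := Nat.le_of_dvd (by norm_num) h
    omega
  have h := Pool.Agent.H447R2.ML.rough_U 1 one_pos hp (by omega) hd
    (x := U 1 p) (by rw [U_fib, fib_eq])
  rw [fib_eq] at h
  exact h

lemma W_luc {p : ℕ} (hp : p.Prime) (h5 : 5 < p) : roughPart p ⌊V 1 p⌋₊ = L p := by
  have hd : ¬ p ∣ 1 := fun h => hp.one_lt.ne' (Nat.dvd_one.1 h)
  have h : Pool.Agent.H305R2.roughPart p ⌊V 1 p⌋₊ = L p := by
    rw [V_luc, Nat.floor_natCast]
    refine Pool.Agent.H447R2.ML.roughPart_eq_self ?_ fun q hq h => ?_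
    · rw [← luc_eq]
      exact (Pool.Agent.H447R2.ML.V_pos 1 p one_pos).ne'
    · rw [← luc_eq] at h
      exact Pool.Agent.H447R2.ML.lt_of_dvd_V 1 hp (by omega) hd hq
        (fun h' => hq.one_lt.ne' (Nat.dvd_one.1 h')) h
  exact h

theorem result :
    (∀ p : ℕ, p.Prime → 5 < p →
      (Hit (U 1) p ↔ (Nat.fib p).Prime) ∧ (Hit (V 1) p ↔ (L p).Prime)) ∧
    (∀ᵐ x : ℝ, 0 < x → ∀ᶠ p : ℕ in atTop, ¬ (Hit (U x) p ∧ Hit (V x) p)) ∧
    (∀ᵐ x : ℝ, 0 < x → ∀ ε : ℝ, 0 < ε → ∀ᶠ p : ℕ in atTop, ∀ q : ℕ, p < q →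
      (q : ℝ) ≤ p + p / Real.log p ^ (1 + ε) →
        ¬ ((Hit (U x) p ∨ Hit (V x) p) ∧ (Hit (U x) q ∨ Hit (V x) q))) ∧
    (∀ S : Set (ℕ × ℕ),
      Summable (fun x : ℕ × ℕ => {x | x ∈ S ∧ x.1.Prime ∧ x.2.Prime ∧ x.1 < x.2}.indicator
        (fun x : ℕ × ℕ => Real.log x.1 / x.1 * (Real.log x.2 / x.2)) x) →
      ∀ᵐ x : ℝ, 0 < x → ∀ᶠ p : ℕ in atTop, ∀ q : ℕ, (p, q) ∈ S → p < q →
        ¬ ((Hit (U x) p ∨ Hit (V x) p) ∧ (Hit (U x) q ∨ Hit (V x) q))) := by
  refine ⟨fun p hp h5 => ⟨?_, ?_⟩, same_level, ?_, fun S hS => ?_⟩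
  · unfold Hit
    rw [W_fib hp h5]
    exact ⟨fun h => h.2, fun h => ⟨hp, h⟩⟩
  · unfold Hit
    rw [W_luc hp h5]
    exact ⟨fun h => h.2, fun h => ⟨hp, h⟩⟩
  · have h := ae_all_iff.2 fun n : ℕ => close_fixed (show (0 : ℝ) < 1 / ((n : ℝ) + 1) by positivity)
    filter_upwards [h] with x h hx ε hε
    obtain ⟨n, hn⟩ := exists_nat_one_div_lt hε
    have hlog : Tendsto (fun p : ℕ => Real.log (p : ℝ)) atTop atTop :=
      Real.tendsto_log_atTop.comp tendsto_natCast_atTop_atTop
    filter_upwards [h n hx, hlog.eventually_ge_atTop 1] with p hp hl q hlt hle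
    have h1 := hp q hlt (hle.trans (by linarith [wid_anti hn.le hl]))
    rintro ⟨h2 | h2, h3 | h3⟩
    · exact h1 false false ⟨h2, h3⟩
    · exact h1 false true ⟨h2, h3⟩
    · exact h1 true false ⟨h2, h3⟩
    · exact h1 true true ⟨h2, h3⟩
  · have h := ae_all_iff.2 fun i : Bool => ae_all_iff.2 fun j : Bool => core i j S hS
    filter_upwards [h] with x hx h0
    filter_upwards [hx false false h0, hx false true h0, hx true false h0, hx true true h0]
      with p h1 h2 h3 h4 q hpq hlt
    rintro ⟨g2 | g2, g3 | g3⟩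
    · exact h1 q hpq hlt ⟨g2, g3⟩
    · exact h2 q hpq hlt ⟨g2, g3⟩
    · exact h3 q hpq hlt ⟨g2, g3⟩
    · exact h4 q hpq hlt ⟨g2, g3⟩

end Pool.Agent.Results.MP_5893d7_nt.LucasClosePairs
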