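import Mathlib
import Pool.Agent.Y719.Mer.Open
import Pool.Agent.H447R2.ML.Spec

set_option autoImplicit false

/-!
# Prime values of binary recurrences along every line through the Fibonacci recurrence

For real `P`, `Q`, `a`, `b` let `T P Q a b` be the solution of `T (n + 2) = P T (n + 1) - Q T n` with
`T 0 = a`, `T 1 = b`.  The Fibonacci numbers are `T 1 (-1) 0 1`, the Lucas numbers are
`T 1 (-1) 2 1`.  For a real sequence `s` and a prime `p` let `W s p` be the `p`-rough part (the
product, with multiplicity, of the prime factors larger than `p`) of `⌊s p⌋`; for the Fibonacci and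
the Lucas numbers it is the number with the index `p` itself, for all primes `p > 5`.

Let the point `(P, Q) = (P₀ + u t, Q₀ + v t)` run through any line, and let the initial values
`f t`, `g t` be `C ^ 2` functions of `t`.  We prove that for almost every `t` for which the
characteristic roots `α`, `β` are real with `α > 1`, `|β| < α`, `u α ≠ v` and the solution is
dominated by a positive multiple of `α ^ n`, the number of primes `p ≤ n` for which the `p`-rough
part of the integer part of the term with the index `p` is prime is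
`(e ^ γ / log α) log n + O((log n) ^ (1/2) (log log n) ^ (5/2))`, with the corresponding statements
for the primes `p` in an arbitrary set.  The excluded lines `u α = v` are those of all recurrences
with the root `α`.

The proof uses the theorem on curves of pairs of the starting library (`Pool.Agent.Y719.Mer.Open`)
in the parameter `α`.
-/

namespace Pool.Agent.Results.MP_5893d7_nt.LucasSequencesAllQ

open Filter Topology MeasureTheory Asymptotics

/-- The Lucas numbers. -/
def L : ℕ → ℕ
  | 0 => 2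
  | 1 => 1
  | (n + 2) => L (n + 1) + L n

/-- The solution of `T (n + 2) = P T (n + 1) - Q T n` with the initial values `a`, `b`. -/
def T (P Q a b : ℝ) : ℕ → ℝ
  | 0 => a
  | 1 => b
  | n + 2 => P * T P Q a b (n + 1) - Q * T P Q a b n

/-- The product, with multiplicity, of the prime factors of `m` that are larger than `p`. -/
def roughPart (p m : ℕ) : ℕ := (m.primeFactorsList.filter (fun r => p < r)).prod

/-- The `p`-rough part of the integer part of the term `s p` of a real sequence. -/
noncomputable def W (s : ℕ → ℝ) (p : ℕ) : ℕ := roughPart p ⌊s p⌋₊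

open Classical in
/-- The number of primes `p ≤ n` in the set `S` for which `W s p` is prime. -/
noncomputable def M (s : ℕ → ℝ) (S : Set ℕ) (n : ℕ) : ℕ :=
  ((Finset.range (n + 1)).filter (fun p => p.Prime ∧ p ∈ S ∧ (W s p).Prime)).card

open Classical in
/-- The sum of `log p / p` over the primes `p ≤ n` in the set `S`. -/
noncomputable def V (S : Set ℕ) (n : ℕ) : ℝ :=
  ∑ p ∈ (Finset.range (n + 1)).filter (fun p => p.Prime ∧ p ∈ S), Real.log p / p

/-- The law with constant `κ`, with error term, for all primes and for the primes in `S`. -/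
structure Law (s : ℕ → ℝ) (κ : ℝ) (S : Set ℕ) : Prop where
  /-- the number of all primes `p ≤ n` with `W s p` prime -/
  all : (fun n : ℕ => (M s Set.univ n : ℝ) - κ * Real.log n) =O[atTop]
    (fun n : ℕ => Real.sqrt (Real.log n) * (Real.log (Real.log n)) ^ ((5 : ℝ) / 2))
  /-- the number of primes `p ≤ n` in `S` with `W s p` prime -/
  sets : Tendsto (V S) atTop atTop → (fun n : ℕ => (M s S n : ℝ) - κ * V S n) =O[atTop]
    (fun n : ℕ => Real.sqrt (V S n * Real.log (Real.log n)) *
      (Real.log (V S n * Real.log (Real.log n))) ^ 2)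
  /-- there are infinitely many in `S` if and only if the weight of `S` is infinite -/
  dichotomy : {p : ℕ | p.Prime ∧ p ∈ S ∧ (W s p).Prime}.Infinite ↔ Tendsto (V S) atTop atTop

lemma V_eq (S : Set ℕ) : V S = Pool.Agent.TH888.R.VS S := by
  funext n
  unfold V Pool.Agent.TH888.R.VS Pool.Agent.TH888.R.wt
  rw [← Finset.sum_filter]
  refine Finset.sum_congr ?_ fun _ _ => rfl
  ext q
  simp only [Finset.mem_filter]
  tauto

lemma M_eq (s : ℕ → ℝ) (S : Set ℕ) (n : ℕ) :
    M s S n = Pool.Agent.TH888.R.cS S (fun p => ⌊s p⌋₊) n := by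
  unfold M Pool.Agent.TH888.R.cS
  congr

lemma law_of {s : ℕ → ℝ} {κ : ℝ} {S : Set ℕ}
    (h1 : Pool.Agent.TH888.R.Pt (fun p => ⌊s p⌋₊) κ Set.univ)
    (h2 : Pool.Agent.TH888.R.Pt (fun p => ⌊s p⌋₊) κ S) : Law s κ S := by
  refine ⟨?_, fun hS => ?_, ?_⟩
  · obtain ⟨B, hB, h⟩ := h1.law Pool.Agent.TH888.R.VS_univ_tendsto
    simp only [M_eq]
    exact Pool.Agent.TH888.R.bigO_all hB h
  · rw [V_eq] at hS ⊢
    obtain ⟨B, hB, h⟩ := h2.law hS
    simp only [M_eq]
    exact Pool.Agent.TH888.R.bigO_set hB hS h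
  · rw [V_eq]
    constructor
    · intro hi
      by_contra hn
      exact hi (h2.fin hn)
    · exact h2.inf

lemma T_closed (α β a b : ℝ) (n : ℕ) :
    T (α + β) (α * β) a b n * (α - β) = (b - β * a) * α ^ n - (b - α * a) * β ^ n := by
  induction n using Nat.twoStepInduction with
  | zero => simp only [T, pow_zero]; ring
  | one => simp only [T, pow_one]; ring
  | more n h1 h2 =>
    show ((α + β) * T (α + β) (α * β) a b (n + 1) - α * β * T (α + β) (α * β) a b n) * (α - β) = _
    linear_combination (α + β) * h2 - α * β * h1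

lemma law_line (P₀ Q₀ u v : ℝ) {f g : ℝ → ℝ} (hf : ContDiff ℝ 2 f) (hg : ContDiff ℝ 2 g)
    (S : Set ℕ) :
    ∀ᵐ t : ℝ, ∀ α β : ℝ, α + β = P₀ + u * t → α * β = Q₀ + v * t → 1 < α → |β| < α →
      u * α ≠ v → 0 < g t - β * f t →
      Law (T (P₀ + u * t) (Q₀ + v * t) (f t) (g t))
        (Real.exp Real.eulerMascheroniConstant / Real.log α) S := by
  set τ : ℝ → ℝ := fun x => (x ^ 2 - P₀ * x + Q₀) / (u * x - v) with hτ
  set bt : ℝ → ℝ := fun x => P₀ + u * τ x - x with hbt
  set U₀ : Set ℝ := {x | u * x - v ≠ 0} with hU₀d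
  have hU₀ : IsOpen U₀ := isOpen_ne_fun (by fun_prop) continuous_const
  have hτc : ContDiffOn ℝ 2 τ U₀ :=
    ContDiffOn.div (by fun_prop) (by fun_prop) (fun x hx => hx)
  have hbc : ContDiffOn ℝ 2 bt U₀ :=
    (contDiffOn_const.add (contDiffOn_const.mul hτc)).sub contDiffOn_id
  have hfc : ContDiffOn ℝ 2 (fun x => f (τ x)) U₀ := hf.comp_contDiffOn hτc
  have hgc : ContDiffOn ℝ 2 (fun x => g (τ x)) U₀ := hg.comp_contDiffOn hτc
  set lead : ℝ → ℝ := fun x => g (τ x) - bt x * f (τ x) with hlead
  have hlc : ContDiffOn ℝ 2 lead U₀ := hgc.sub (hbc.mul hfc)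
  have hVo : IsOpen {q : ℝ × ℝ × ℝ | 1 < q.1 ∧ |q.2.1| < q.1 ∧ 0 < q.2.2} := by
    refine (isOpen_lt continuous_const continuous_fst).inter
      ((isOpen_lt (continuous_abs.comp (continuous_fst.comp continuous_snd))
        continuous_fst).inter
        (isOpen_lt continuous_const (continuous_snd.comp continuous_snd)))
  set U : Set ℝ := U₀ ∩ (fun x => (x, bt x, lead x)) ⁻¹'
    {q : ℝ × ℝ × ℝ | 1 < q.1 ∧ |q.2.1| < q.1 ∧ 0 < q.2.2} with hUd
  have hU : IsOpen U :=
    ContinuousOn.isOpen_inter_preimage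
      (continuousOn_id.prodMk (hbc.continuousOn.prodMk hlc.continuousOn)) hU₀ hVo
  have hsub : U ⊆ U₀ := Set.inter_subset_left
  have hU1 : ∀ x ∈ U, 1 < x := fun x hx => hx.2.1
  have hcx : ∀ x ∈ U, |bt x| < x := fun x hx => hx.2.2.1
  have hlp : ∀ x ∈ U, 0 < lead x := fun x hx => hx.2.2.2
  have hdp : ∀ x ∈ U, 0 < x - bt x := fun x hx => by
    have := (abs_lt.1 (hcx x hx)).2
    linarith
  have hdc : ContDiffOn ℝ 2 (fun x => x - bt x) U := contDiffOn_id.sub (hbc.mono hsub)
  have hA : ContDiffOn ℝ 2 (fun x => lead x / (x - bt x)) U :=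
    (hlc.mono hsub).div hdc fun x hx => (hdp x hx).ne'
  have hB : ContDiffOn ℝ 2 (fun x => (g (τ x) - x * f (τ x)) / (x - bt x)) U :=
    ((hgc.mono hsub).sub (contDiffOn_id.mul (hfc.mono hsub))).div hdc fun x hx => (hdp x hx).ne'
  have hpos : ∀ x ∈ U, 0 < lead x / (x - bt x) := fun x hx => div_pos (hlp x hx) (hdp x hx)
  have h1 := Pool.Agent.Y719.Mer.pt_open hU hU1 hA hB (hbc.mono hsub) hpos hcx Set.univ
  have h2 := Pool.Agent.Y719.Mer.pt_open hU hU1 hA hB (hbc.mono hsub) hpos hcx S
  have h : ∀ᵐ x : ℝ, x ∈ U → Law (fun p => lead x / (x - bt x) * x ^ p -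
      (g (τ x) - x * f (τ x)) / (x - bt x) * bt x ^ p)
      (Real.exp Real.eulerMascheroniConstant / Real.log x) S := by
    filter_upwards [h1, h2] with x h1 h2 hx
    exact law_of (h1 hx) (h2 hx)
  have hd : DifferentiableOn ℝ τ U := (hτc.mono hsub).differentiableOn (by norm_num)
  filter_upwards [Pool.Agent.Y719.Mer.ae_image hd h] with t ht α β e1 e2 hα hβ huv hl
  have hne : u * α - v ≠ 0 := sub_ne_zero.2 huv
  have hτα : τ α = t := by
    simp only [hτ]
    rw [div_eq_iff hne]
    linear_combination α * e1 - e2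
  have hbα : bt α = β := by
    simp only [hbt]
    rw [hτα]
    linarith
  have hleadα : lead α = g t - β * f t := by
    simp only [hlead]
    rw [hτα, hbα]
  have hαU : α ∈ U := by
    refine ⟨hne, hα, ?_, ?_⟩
    · show |bt α| < α
      rw [hbα]; exact hβ
    · show 0 < lead α
      rw [hleadα]; exact hl
  have h3 := ht α hαU hτα
  have hαβ : α - β ≠ 0 := by
    have := (abs_lt.1 hβ).2
    linarith
  have e : (fun p : ℕ => lead α / (α - bt α) * α ^ p -
      (g (τ α) - α * f (τ α)) / (α - bt α) * bt α ^ p) =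
      T (P₀ + u * t) (Q₀ + v * t) (f t) (g t) := by
    funext n
    have h4 := T_closed α β (f t) (g t) n
    rw [e1, e2] at h4
    rw [hleadα, hbα, hτα, div_mul_eq_mul_div, div_mul_eq_mul_div, ← sub_div, div_eq_iff hαβ]
    exact h4.symm
  rw [e] at h3
  exact h3

lemma T_fib (n : ℕ) : T 1 (-1) 0 1 n = (Nat.fib n : ℝ) := by
  induction n using Nat.twoStepInduction with
  | zero => simp [T]
  | one => simp [T]
  | more n h1 h2 =>
    show 1 * T 1 (-1) 0 1 (n + 1) - (-1) * T 1 (-1) 0 1 n = _
    rw [h1, h2, Nat.fib_add_two]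
    push_cast
    ring

lemma T_luc (n : ℕ) : T 1 (-1) 2 1 n = (L n : ℝ) := by
  induction n using Nat.twoStepInduction with
  | zero => simp [T, L]
  | one => simp [T, L]
  | more n h1 h2 =>
    show 1 * T 1 (-1) 2 1 (n + 1) - (-1) * T 1 (-1) 2 1 n = _
    rw [h1, h2, show L (n + 2) = L (n + 1) + L n from rfl]
    push_cast
    ring

lemma fib_eq (n : ℕ) : Pool.Agent.H447R2.ML.U 1 n = Nat.fib n := by
  induction n using Nat.twoStepInduction with
  | zero => rfl
  | one => rfl
  | more n h1 h2 =>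
    rw [Pool.Agent.H447R2.ML.U_add_two, h1, h2, Nat.fib_add_two]
    ring

lemma luc_eq (n : ℕ) : Pool.Agent.H447R2.ML.V 1 n = L n := by
  induction n using Nat.twoStepInduction with
  | zero => rfl
  | one => rfl
  | more n h1 h2 =>
    show _ = L (n + 1) + L n
    rw [Pool.Agent.H447R2.ML.V_add_two, h1, h2]
    ring

/-- The Fibonacci numbers. -/
lemma W_fib {p : ℕ} (hp : p.Prime) (h5 : 5 < p) : W (T 1 (-1) 0 1) p = Nat.fib p := by
  have hd : ¬ p ∣ 1 ^ 2 + 4 := by
    intro h
    have := Nat.le_of_dvd (by norm_num) h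
    omega
  have h := Pool.Agent.H447R2.ML.rough_U 1 one_pos hp (by omega) hd
    (x := T 1 (-1) 0 1 p) (by rw [T_fib, fib_eq])
  rw [fib_eq] at h
  exact h

/-- The Lucas numbers. -/
lemma W_luc {p : ℕ} (hp : p.Prime) (h5 : 5 < p) : W (T 1 (-1) 2 1) p = L p := by
  have hd : ¬ p ∣ 1 := fun h => hp.one_lt.ne' (Nat.dvd_one.1 h)
  have h : Pool.Agent.H305R2.roughPart p ⌊T 1 (-1) 2 1 p⌋₊ = L p := by
    rw [T_luc, Nat.floor_natCast]
    refine Pool.Agent.H447R2.ML.roughPart_eq_self ?_ fun q hq h => ?_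
    · rw [← luc_eq]
      exact (Pool.Agent.H447R2.ML.V_pos 1 p one_pos).ne'
    · rw [← luc_eq] at h
      exact Pool.Agent.H447R2.ML.lt_of_dvd_V 1 hp (by omega) hd hq
        (fun h' => hq.one_lt.ne' (Nat.dvd_one.1 h')) h
  exact h

/-- The Fibonacci and the Lucas numbers are the solutions at the point `(P, Q) = (1, -1)` with the
initial values `(0, 1)` and `(2, 1)`.  On every line of the plane of the recurrences, and for all
`C ^ 2` initial values, the law holds with a square root error term at almost every point at which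
the roots are real, the larger one is larger than `1`, is not a root of all recurrences of the line
and has a positive coefficient in the solution. -/
theorem result :
    (∀ n : ℕ, T 1 (-1) 0 1 n = Nat.fib n ∧ T 1 (-1) 2 1 n = L n) ∧
    (∀ p : ℕ, p.Prime → 5 < p → W (T 1 (-1) 0 1) p = Nat.fib p ∧ W (T 1 (-1) 2 1) p = L p) ∧
    (∀ (P₀ Q₀ u v : ℝ) (f g : ℝ → ℝ), ContDiff ℝ 2 f → ContDiff ℝ 2 g → ∀ S : Set ℕ,
      ∀ᵐ t : ℝ, ∀ α β : ℝ, α + β = P₀ + u * t → α * β = Q₀ + v * t → 1 < α → |β| < α →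
        u * α ≠ v → 0 < g t - β * f t →
        Law (T (P₀ + u * t) (Q₀ + v * t) (f t) (g t))
          (Real.exp Real.eulerMascheroniConstant / Real.log α) S) :=
  ⟨fun n => ⟨T_fib n, T_luc n⟩, fun _ hp h5 => ⟨W_fib hp h5, W_luc hp h5⟩,
    fun P₀ Q₀ u v _ _ hf hg S => law_line P₀ Q₀ u v hf hg S⟩

end Pool.Agent.Results.MP_5893d7_nt.LucasSequencesAllQ
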